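import Pool.Agent.V11208.PL.Main

/-!
# MP_63d866_gt: the coefficients of the Conway polynomial of a link with `n` crossings are
bounded by those of the `(2, n)`-torus link

Links are oriented polygonal links in space up to polygonal isotopy; the Conway polynomial is
given by its axioms; the crossing number is the least number of crossings of a regular diagram.

The proof: smoothing the crossings of a minimal diagram expresses the coefficient by the
descending one-cycle states with `k` smoothed crossings, and, going the other way, by the
ascending ones. A linear-algebra argument for skew-symmetric matrices in general position
(every index set is covered by exactly one state-like vector) bounds the number of descending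
plus ascending states by twice the binomial coefficient.
-/

namespace Pool.Agent.Results.MP_63d866_gt.TorusMaximal

open Pool.Agent.V11208.PL

/-- For every `n ≥ 2`, every `k` with `n ≡ k + 1 (mod 2)` and every link `L` with crossing number
`n`, the coefficient of `z ^ k` in the Conway polynomial of `L` is at most
`choose ((n - 1 + k) / 2) k` in absolute value; this number is the coefficient of `z ^ k` for the
`(2, n)`-torus link. -/
theorem result (nabla : PLink → Polynomial ℤ) (hN : IsConway nabla) (n k : ℕ) (hn : 2 ≤ n)
    (hnk : n ≡ k + 1 [MOD 2]) (L : PLink) (hL : crossingNumber L = n) :
    |(nabla L).coeff k| ≤ (((n - 1 + k) / 2).choose k : ℤ) := by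
  apply conway_bound hN L n k hn _ hL
  rw [Nat.odd_iff]
  have h : n % 2 = (k + 1) % 2 := hnk
  omega

end Pool.Agent.Results.MP_63d866_gt.TorusMaximal
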